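import Pool.Agent.H62.Iso5
import Pool.Graph.R_seed8.Y826.ZC.Gap45

/-!
# Differences of arbitrary sets of integers as gaps in isolated clusters of primes

Call a finite set `S` of natural numbers, of at least two elements, an isolated pattern if there are `c, ε > 0` such that for
arbitrarily large `X` at least `c X / (log X) ^ 45` integers `n` in `(X, 3 X]` have the property: the primes of the interval
`(n - ε log X, n + max S + ε log X)` are exactly the numbers `n + s`, `s ∈ S`. So the translate `n + S` is a cluster of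
consecutive primes, and all the other primes are at distance at least `ε log X` from it. Call `d` an isolated gap if it is the
difference of two consecutive elements of an isolated pattern of at most 45 elements: then `d` is the difference of two consecutive
primes of these clusters. Every admissible 45-tuple contains an isolated pattern, one of the differences of any 289 integers is an
isolated gap, in every finite set of `n` integers at least `n (n - 288) / 576` pairs have this property, and one of the multiples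
`2N, 4N, ..., 212N` of every even number `2N` is an isolated gap.

Proof. `Pool.Agent.H62.Iso.pattern`: the lower bound for the number of the prime pairs in the rough translates of an
admissible 45-tuple (`Pool.Agent.Helper2.NR.count_all`, from the sieve weights of `DHL[45,2]`), and a new upper bound
`C δ X / (log X) ^ 45` for the number of the rough translates with another rough integer within `δ log X`, from the relative
average of the singular series (`Pool.Agent.R463.EX.momentR`); then Turan's theorem as in the file on progressions.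
-/

set_option autoImplicit false

namespace Pool.Agent.Results.MP_70e905_nt.IsolatedDifferencesOf289

open Finset Filter
open Pool.Agent.Helper2.NR Pool.Agent.Y826.ZC
open Pool.Agent.H95R2.BG (Admissible)

/-- `S` has at least two elements, and there are `c, ε > 0` such that for arbitrarily large `X`, for at least
`c X / (log X) ^ 45` integers `n` in `(X, 3 X]`, the primes of the interval `(n - ε log X, n + max S + ε log X)` are exactly
the numbers `n + s`, `s ∈ S`. -/
def IsolatedPattern (S : Finset ℕ) : Prop :=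
  2 ≤ S.card ∧ ∃ c ε : ℝ, 0 < c ∧ 0 < ε ∧ ∃ᶠ X : ℕ in atTop, c * ((X : ℝ) / Real.log X ^ 45) ≤
    (Set.ncard {n : ℕ | X < n ∧ n ≤ 3 * X ∧ ∀ q : ℕ, (n : ℝ) - ε * Real.log X < q →
      (q : ℝ) < n + (S.sup id : ℕ) + ε * Real.log X → (q.Prime ↔ ∃ s ∈ S, q = n + s)} : ℝ)

/-- `d` is the difference of two consecutive elements of an isolated pattern of at most 45 elements. -/
def IsolatedGap (d : ℤ) : Prop :=
  0 < d ∧ ∃ S : Finset ℕ, S.card ≤ 45 ∧ IsolatedPattern S ∧ ∃ u ∈ S, ∃ v ∈ S, (v : ℤ) - u = d ∧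
    ∀ s ∈ S, s ≤ u ∨ v ≤ s

/-- Every admissible 45-tuple contains an isolated pattern. -/
theorem exists_pattern (h : Fin 45 → ℕ) (hadm : Admissible h) :
    ∃ S : Finset ℕ, S ⊆ univ.image h ∧ IsolatedPattern S := by
  classical
  have hD : ∀ i, h i ≤ (univ.image h).sup id := fun i => Finset.le_sup (f := id) (mem_image_of_mem h (mem_univ i))
  obtain ⟨S, c, ε, hS, hS2, hc, hε, hX⟩ := Pool.Agent.H62.Iso.pattern h hadm _ hD
  refine ⟨S, hS, hS2, c, ε, hc, hε, hX.mono fun X hle => hle.trans ?_⟩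
  apply Nat.cast_le.2
  apply Set.ncard_le_ncard
  · rintro n ⟨g1, g2, g3⟩
    refine ⟨g1, g2, fun q h1 h2 => g3 q h1 (h2.trans_le ?_)⟩
    have h3 : S.sup id ≤ (univ.image h).sup id := Finset.sup_mono hS
    have h4 : ((S.sup id : ℕ) : ℝ) ≤ (((univ.image h).sup id : ℕ) : ℝ) := by exact_mod_cast h3
    linarith
  · exact (Set.finite_Iic (3 * X)).subset fun n hn => hn.2.1

theorem of_adm_nat (h : Fin 45 → ℕ) (hadm : Admissible h) :
    ∃ i j, h i < h j ∧ IsolatedGap ((h j : ℤ) - h i) := by
  classical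
  obtain ⟨S, hS, hpat⟩ := exists_pattern h hadm
  obtain ⟨x, hx, y, hy, hxy⟩ := Finset.one_lt_card.1 (show 1 < S.card from hpat.1)
  obtain ⟨u, hu, humin⟩ := Finset.exists_min_image S id ⟨x, hx⟩
  simp only [id] at humin
  have hex : (S.filter (fun s => u < s)).Nonempty := by
    rcases lt_or_gt_of_ne hxy with h1 | h1
    · exact ⟨y, mem_filter.2 ⟨hy, lt_of_le_of_lt (humin x hx) h1⟩⟩
    · exact ⟨x, mem_filter.2 ⟨hx, lt_of_le_of_lt (humin y hy) h1⟩⟩
  obtain ⟨v, hv, hvmin⟩ := Finset.exists_min_image (S.filter (fun s => u < s)) id hex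
  rw [mem_filter] at hv
  simp only [id, mem_filter] at hvmin
  obtain ⟨i, -, hi⟩ := mem_image.1 (hS hu)
  obtain ⟨j, -, hj⟩ := mem_image.1 (hS hv.1)
  have hcard : S.card ≤ 45 := by
    have := card_le_card hS
    rwa [card_HH hadm.1] at this
  refine ⟨i, j, by omega, ?_, S, hcard, hpat, u, hu, v, hv.1, by rw [hi, hj], ?_⟩
  · rw [hi, hj]
    have : (u : ℤ) < v := by exact_mod_cast hv.2
    linarith
  · intro s hs
    by_cases h1 : s ≤ u
    · exact Or.inl h1
    · exact Or.inr (hvmin s ⟨hs, by omega⟩)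

theorem of_adm (a : Fin 45 → ℤ) (hinj : Function.Injective a)
    (hadm : ∀ p : ℕ, p.Prime → ∃ r : ℤ, ∀ i, ¬ (p : ℤ) ∣ r + a i) :
    ∃ i j, a i < a j ∧ IsolatedGap (a j - a i) := by
  obtain ⟨i0, -, hi0⟩ := Finset.exists_min_image (Finset.univ : Finset (Fin 45)) a ⟨0, Finset.mem_univ _⟩
  have hpos : ∀ i, 0 ≤ a i - a i0 := fun i => by linarith [hi0 i (mem_univ _)]
  have hcast : ∀ i, (((a i - a i0).toNat : ℕ) : ℤ) = a i - a i0 := fun i => Int.toNat_of_nonneg (hpos i)
  obtain ⟨i, j, hij, h⟩ := of_adm_nat (fun i => (a i - a i0).toNat) ⟨by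
      intro i j hij
      have h1 : (a i - a i0).toNat = (a j - a i0).toNat := hij
      have h2 : a i - a i0 = a j - a i0 := by rw [← hcast i, ← hcast j, h1]
      exact hinj (by linarith), by
      intro p hp
      obtain ⟨r, hr⟩ := hadm p hp
      have hp0 : (p : ℤ) ≠ 0 := by exact_mod_cast hp.ne_zero
      refine ⟨((r + a i0) % p).toNat, fun i hd => hr i ?_⟩
      have h1 : (p : ℤ) ∣ ((((r + a i0) % p).toNat + (a i - a i0).toNat : ℕ) : ℤ) := by exact_mod_cast hd
      rw [Nat.cast_add, hcast i, Int.toNat_of_nonneg (Int.emod_nonneg _ hp0)] at h1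
      have h2 : (p : ℤ) ∣ (r + a i0) - (r + a i0) % p := Int.dvd_self_sub_emod
      have h3 := dvd_add h1 h2
      have e : (r + a i0) % p + (a i - a i0) + ((r + a i0) - (r + a i0) % p) = r + a i := by ring
      rwa [e] at h3⟩
  refine ⟨i, j, ?_, ?_⟩
  · have h1 : (a i - a i0).toNat < (a j - a i0).toNat := hij
    have h2 : (((a i - a i0).toNat : ℕ) : ℤ) < (((a j - a i0).toNat : ℕ) : ℤ) := by exact_mod_cast h1
    rw [hcast, hcast] at h2
    linarith
  · have e : ((((a j - a i0).toNat : ℕ) : ℤ)) - (((a i - a i0).toNat : ℕ) : ℤ) = a j - a i := by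
      rw [hcast, hcast]; ring
    rw [← e]
    exact h

theorem exists_289 (S : Finset ℤ) (hS : 289 ≤ S.card) :
    ∃ a ∈ S, ∃ b ∈ S, a < b ∧ IsolatedGap (b - a) := by
  obtain ⟨T, hTS, hT, hc⟩ := admissible_subset S hS
  set f := T.orderEmbOfFin hT with hf
  have hmem : ∀ i, f i ∈ T := fun i => Finset.orderEmbOfFin_mem T hT i
  obtain ⟨i, j, hij, h⟩ := of_adm (fun i => f i) f.injective (by
    intro p hp
    obtain ⟨c, hc'⟩ := hc p hp
    refine ⟨-c, fun i hd => hc' _ (hmem i) ?_⟩
    rwa [neg_add_eq_sub] at hd)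
  exact ⟨f i, hTS (hmem i), f j, hTS (hmem j), hij, h⟩

theorem multiple (N : ℕ) (hN : 0 < N) : ∃ k : ℕ, 1 ≤ k ∧ k ≤ 106 ∧ IsolatedGap ((k : ℤ) * (2 * N)) := by
  obtain ⟨i, j, hij, h⟩ := of_adm (fun i => (N : ℤ) * tup45 i) (by
      intro i j hij
      have h1 : (N : ℤ) * tup45 i = N * tup45 j := hij
      have h2 : (tup45 i : ℤ) = tup45 j := mul_left_cancel₀ (by exact_mod_cast hN.ne') h1
      exact tup45_admissible.1 (by exact_mod_cast h2)) (by
      intro p hp
      by_cases hpN : p ∣ N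
      · refine ⟨1, fun i hdvd => ?_⟩
        have h1 : (p : ℤ) ∣ (N : ℤ) * tup45 i := Dvd.dvd.mul_right (by exact_mod_cast hpN) _
        have h2 : (p : ℤ) ∣ 1 := (Int.dvd_iff_dvd_of_dvd_add hdvd).mpr h1
        have h3 : (p : ℕ) ∣ 1 := by exact_mod_cast h2
        exact hp.one_lt.ne' (Nat.dvd_one.mp h3)
      · obtain ⟨a0, ha0⟩ := tup45_admissible.2 p hp
        refine ⟨(N : ℤ) * a0, fun i hdvd => ?_⟩
        have h1 : (p : ℤ) ∣ (N : ℤ) * ((a0 + tup45 i : ℕ) : ℤ) := by
          push_cast
          rw [mul_add]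
          exact hdvd
        have h2 : p ∣ N * (a0 + tup45 i) := by exact_mod_cast h1
        rcases hp.dvd_mul.mp h2 with h3 | h3
        · exact hpN h3
        · exact ha0 i h3)
  have hlt : tup45 i < tup45 j := by
    have h1 : (N : ℤ) * tup45 i < N * tup45 j := hij
    have h2 : (tup45 i : ℤ) < tup45 j := lt_of_mul_lt_mul_left h1 (by positivity)
    exact_mod_cast h2
  obtain ⟨u, hu⟩ := tup45_even i
  obtain ⟨v, hv⟩ := tup45_even j
  have hj := tup45_le j
  refine ⟨v - u, by omega, by omega, ?_⟩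
  have e : ((v - u : ℕ) : ℤ) * (2 * N) = (N : ℤ) * tup45 j - (N : ℤ) * tup45 i := by
    rw [Nat.cast_sub (by omega), hu, hv]
    push_cast
    ring
  rw [e]
  exact h

open Classical in
/-- the pairs of elements of `S` whose difference is an isolated gap -/
noncomputable def goodPairs (S : Finset ℤ) : Finset (ℤ × ℤ) :=
  (S ×ˢ S).filter fun p => p.1 < p.2 ∧ IsolatedGap (p.2 - p.1)

/-- the graph of the pairs whose difference is not a progression gap -/
def badGraph (S : Finset ℤ) : SimpleGraph S where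
  Adj a b := a ≠ b ∧ ¬ IsolatedGap (max (a : ℤ) b - min (a : ℤ) b)
  symm := ⟨fun a b h => ⟨h.1.symm, by rw [max_comm, min_comm]; exact h.2⟩⟩
  loopless := ⟨fun a h => h.1 rfl⟩

theorem badGraph_cliqueFree (S : Finset ℤ) : (badGraph S).CliqueFree (288 + 1) := by
  classical
  intro T hT
  rw [SimpleGraph.isNClique_iff, SimpleGraph.isClique_iff] at hT
  obtain ⟨a, ha, b, hb, hab, h⟩ := exists_289 (T.map (Function.Embedding.subtype _)) (by
    rw [card_map]; exact hT.2.ge)
  rw [Finset.mem_map] at ha hb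
  obtain ⟨a', ha', rfl⟩ := ha
  obtain ⟨b', hb', rfl⟩ := hb
  have hab' : (a' : ℤ) < b' := hab
  have hne : a' ≠ b' := by
    rintro rfl
    exact lt_irrefl _ hab'
  have h2 := hT.1 (mem_coe.2 ha') (mem_coe.2 hb') hne
  apply h2.2
  rw [max_eq_right hab'.le, min_eq_left hab'.le]
  exact h

open Classical in
theorem edges_le (S : Finset ℤ) :
    2 * 288 * (badGraph S).edgeFinset.card ≤ 287 * S.card ^ 2 := by
  obtain ⟨H, _, maxH⟩ := SimpleGraph.exists_isTuranMaximal (V := S) (r := 288) (by norm_num)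
  have h1 : (badGraph S).edgeFinset.card ≤ H.edgeFinset.card := by
    convert! maxH.2 (badGraph_cliqueFree S)
  have h2 : H.edgeFinset.card = (SimpleGraph.turanGraph (Fintype.card S) 288).edgeFinset.card :=
    ((SimpleGraph.isTuranMaximal_iff_nonempty_iso_turanGraph (by norm_num)).mp maxH).some.card_edgeFinset_eq
  have h3 := SimpleGraph.mul_card_edgeFinset_turanGraph_le (n := Fintype.card S) (r := 288)
  rw [Fintype.card_coe] at h2 h3
  calc 2 * 288 * (badGraph S).edgeFinset.card ≤ 2 * 288 * H.edgeFinset.card := by gcongr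
    _ = 2 * 288 * (SimpleGraph.turanGraph S.card 288).edgeFinset.card := by rw [h2]
    _ ≤ 287 * S.card ^ 2 := h3

open Classical in
theorem bad_le (S : Finset ℤ) :
    ((S ×ˢ S).filter fun p => p.1 < p.2 ∧ ¬ IsolatedGap (p.2 - p.1)).card ≤
      (badGraph S).edgeFinset.card := by
  refine Finset.card_le_card_of_surjOn (fun e : Sym2 S =>
    (Sym2.lift ⟨fun a b : S => (min (a : ℤ) b, max (a : ℤ) b), fun a b => by
      show (min (a : ℤ) b, max (a : ℤ) b) = (min (b : ℤ) a, max (b : ℤ) a)
      rw [min_comm, max_comm]⟩ e)) ?_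
  rintro ⟨a, b⟩ hab
  rw [mem_coe, mem_filter, mem_product] at hab
  obtain ⟨⟨ha, hb⟩, h1, h2⟩ := hab
  simp only at ha hb h1 h2
  refine ⟨s(⟨a, ha⟩, ⟨b, hb⟩), ?_, ?_⟩
  · rw [mem_coe, SimpleGraph.mem_edgeFinset, SimpleGraph.mem_edgeSet]
    refine ⟨fun h => h1.ne (congrArg Subtype.val h), ?_⟩
    rw [max_eq_right h1.le, min_eq_left h1.le]
    exact h2
  · simp only [Sym2.lift_mk, min_eq_left h1.le, max_eq_right h1.le]

theorem card_sq (S : Finset ℤ) :
    S.card ^ 2 = S.card + 2 * ((S ×ˢ S).filter fun p => p.1 < p.2).card := by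
  classical
  have h1 : (S ×ˢ S).card = S.card ^ 2 := by rw [card_product, sq]
  have h2 : (S ×ˢ S) = ((S ×ˢ S).filter fun p => p.1 < p.2) ∪
      (((S ×ˢ S).filter fun p => p.2 < p.1) ∪ S.diag) := by
    ext ⟨a, b⟩
    simp only [mem_product, mem_union, mem_filter, mem_diag]
    constructor
    · rintro ⟨ha, hb⟩
      rcases lt_trichotomy a b with h | h | h
      · exact Or.inl ⟨⟨ha, hb⟩, h⟩
      · exact Or.inr (Or.inr ⟨ha, h⟩)
      · exact Or.inr (Or.inl ⟨⟨ha, hb⟩, h⟩)
    · rintro (h | h | h)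
      · exact h.1
      · exact h.1
      · exact ⟨h.1, h.2 ▸ h.1⟩
  have h3 : ((S ×ˢ S).filter fun p => p.2 < p.1).card = ((S ×ˢ S).filter fun p => p.1 < p.2).card := by
    refine card_bij (fun p _ => (p.2, p.1)) ?_ ?_ ?_
    · rintro ⟨a, b⟩ h
      simp only [mem_filter, mem_product] at h ⊢
      exact ⟨⟨h.1.2, h.1.1⟩, h.2⟩
    · rintro ⟨a, b⟩ _ ⟨c, d⟩ _ h
      simp only [Prod.mk.injEq] at h ⊢
      exact ⟨h.2, h.1⟩
    · rintro ⟨a, b⟩ h
      simp only [mem_filter, mem_product] at h
      exact ⟨(b, a), by simp only [mem_filter, mem_product]; exact ⟨⟨h.1.2, h.1.1⟩, h.2⟩, rfl⟩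
  rw [← h1]
  conv_lhs => rw [h2]
  rw [card_union_of_disjoint, card_union_of_disjoint, h3, diag_card]
  · ring
  · rw [disjoint_left]
    rintro ⟨a, b⟩ h h'
    simp only [mem_filter, mem_diag] at h h'
    exact h.2.ne h'.2.symm
  · rw [disjoint_left]
    rintro ⟨a, b⟩ h h'
    simp only [mem_filter, mem_diag, mem_union] at h h'
    rcases h' with h' | h'
    · exact lt_asymm h.2 h'.2
    · exact h.2.ne h'.2

theorem main_count (S : Finset ℤ) :
    S.card ^ 2 ≤ 288 * S.card + 576 * (goodPairs S).card := by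
  classical
  have h1 := card_sq S
  have h2 := edges_le S
  have h3 := bad_le S
  have h4 : ((S ×ˢ S).filter fun p => p.1 < p.2).card =
      (goodPairs S).card + ((S ×ˢ S).filter fun p => p.1 < p.2 ∧ ¬ IsolatedGap (p.2 - p.1)).card := by
    rw [← card_filter_add_card_filter_not (s := (S ×ˢ S).filter fun p => p.1 < p.2)
      (fun p => IsolatedGap (p.2 - p.1)), filter_filter, filter_filter, goodPairs]
  nlinarith

/-- (0) Every admissible 45-tuple contains an isolated pattern. (1) For every finite set `S` of `n` integers at least `n (n - 288) / 576` pairs `a < b` of elements of `S`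
have the property that `b - a` is an isolated gap. (2) In particular this holds for at least one pair if
`n ≥ 289`. (3) One of the differences of every admissible 45-tuple is an isolated gap. (4) One of the multiples
`2 N, 4 N, ..., 212 N` of every even number `2 N > 0` is an isolated gap. -/
theorem result :
    (∀ h : Fin 45 → ℕ, Function.Injective h → (∀ p : ℕ, p.Prime → ∃ a : ℕ, ∀ i, ¬ p ∣ a + h i) →
      ∃ S : Finset ℕ, S ⊆ univ.image h ∧ IsolatedPattern S) ∧
    (∀ S : Finset ℤ, ∃ P : Finset (ℤ × ℤ),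
      (∀ p ∈ P, p.1 ∈ S ∧ p.2 ∈ S ∧ p.1 < p.2 ∧ IsolatedGap (p.2 - p.1)) ∧
      (S.card : ℝ) * ((S.card : ℝ) - 288) / 576 ≤ P.card) ∧
    (∀ S : Finset ℤ, 289 ≤ S.card → ∃ a ∈ S, ∃ b ∈ S, a < b ∧ IsolatedGap (b - a)) ∧
    (∀ a : Fin 45 → ℤ, Function.Injective a →
      (∀ p : ℕ, p.Prime → ∃ r : ℤ, ∀ i, ¬ (p : ℤ) ∣ r + a i) →
      ∃ i j, a i < a j ∧ IsolatedGap (a j - a i)) ∧
    (∀ N : ℕ, 0 < N → ∃ k : ℕ, 1 ≤ k ∧ k ≤ 106 ∧ IsolatedGap ((k : ℤ) * (2 * N))) := by
  classical
  refine ⟨fun h h1 h2 => exists_pattern h ⟨h1, h2⟩, fun S => ⟨goodPairs S, ?_, ?_⟩, exists_289, of_adm, multiple⟩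
  · intro p hp
    rw [goodPairs, mem_filter, mem_product] at hp
    exact ⟨hp.1.1, hp.1.2, hp.2.1, hp.2.2⟩
  · have h := main_count S
    have h' : (S.card : ℝ) ^ 2 ≤ 288 * S.card + 576 * (goodPairs S).card := by exact_mod_cast h
    nlinarith

end Pool.Agent.Results.MP_70e905_nt.IsolatedDifferencesOf289
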