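import Pool.Agent.Helper95.MC.Gaps

/-!
# Gaps between consecutive primes in every class of a multiplicative function

`N d` is called a gap if it is equal to `p_(l+1) - p_l`, `p_l ≡ a (mod N)`, for at least `x ^ (1 - η)` primes
`p_l ≤ x`, for every `η > 0` and arbitrarily large `x`; here `6 ∣ N`, `N` is squarefree and `a` is prime to `N`.
Let `b_1, …, b_k` be positive integers; `n` is good if ALL the numbers `N b_1 n, …, N b_k n` are gaps
(for `k = 1`, `b_1 = 1`: if `N n` is a gap). Let `R` be a number such that every colouring of the pairs of `R`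
points with `k` colours has a monochromatic `K_4` (`R = 4` for `k = 1`, `R = 18` for `k = 2`).

A finite set `F` of positive integers is almost invariant if, for all `c ≤ K`, all but `|F| / K` of its elements
`n` have `c n` in `F` (the divisors of a highly divisible number; the products `p_1 ^ e_1 ⋯ p_r ^ e_r` with the
`e_i` in arbitrary long intervals, `p_i` the primes up to `K`, times arbitrary numbers prime to `K!`; …).

(A) Let `ψ` be a weight with values in `[0, 1]` whose dilates `ψ (c n)`, `c ≤ K`, fall into at most `m` classes, up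
to `ε`. Then the good numbers carry at least `1 / (R - 1)` of the mass which `ψ` has on each almost invariant set,
up to `4 ε |F|`; for `k = 1` this is a third. `K` depends on `m, ε, k, R` only, not on `ψ, N, a, b`.

(B) In particular let `f` be completely multiplicative with values in any set with a product, with at most `m`
values on `[1, K]` (e.g. `f` takes values in a group of order `m`: the Liouville function, `Ω(n)` modulo `m`, all the
exponents of some primes modulo some numbers, …): at least a third of EVERY class `f = g` of each almost invariant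
set consists of good numbers (`k = 1`).

(C) Let `f` have values in a finite group. There is `Q` such that for every `s` one of the multiples `q s`,
`q ≤ Q`, is good and has the value `f (q s) = f (n₀)`, for each prescribed `n₀`; `Q` depends on `k` and `f` only.
So the good numbers in each class have positive lower natural density: at least `1 / Q ^ 2`. In other words the
gaps meet every coset of every subgroup of finite index of the group of the positive rational numbers, in a set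
of positive lower density.

(D) Example: the number of prime factors. For all `m` and `r` the good `n` with `Ω(n) ≡ r (mod m)` have positive
lower density.

(The starting files have this for `ψ = 1`, i.e. without classes. New: Ramsey's theorem gives large sets of integers
whose differences have the same dilate of `ψ` up to `ε`; to the dilates of such a set the theorem on the pairs of
arbitrary sets, `Pool.Agent.Results.MP_70e905_nt.SimultaneousMultiples`, is applied, and the pairs are averaged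
over `F`.)
-/

set_option autoImplicit false

namespace Pool.Agent.Results.MP_70e905_nt.MultiplicativeClasses

open Finset Filter

/-- `N d` is, for every `η > 0` and arbitrarily large `x`, the gap `p_(l+1) - p_l` for at least
`x ^ (1 - η)` of the `l` with `p_l ≤ x` and `p_l ≡ a (mod N)`. -/
def IsGap (N a d : ℕ) : Prop := ∀ η : ℝ, 0 < η → ∃ᶠ x : ℝ in atTop,
  x ^ (1 - η) ≤ ({l : ℕ | (Nat.nth Nat.Prime l : ℝ) ≤ x ∧ Nat.nth Nat.Prime l ≡ a [MOD N] ∧
    Nat.nth Nat.Prime (l + 1) = Nat.nth Nat.Prime l + N * d}.ncard : ℝ)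

/-- `n` is good: all the numbers `N b_i n` are gaps. -/
def Good (N a : ℕ) {k : ℕ} (b : Fin k → ℕ) (n : ℕ) : Prop := ∀ i, IsGap N a (b i * n)

/-- In every colouring of the pairs of `R` points with `k` colours there are four points whose pairs have
the same colour. -/
def Ramsey4 (k R : ℕ) : Prop := ∀ c : Fin R → Fin R → Fin k, (∀ i j, c i j = c j i) →
  ∃ (e : Fin 4 ↪ Fin R) (l : Fin k), ∀ i j, i ≠ j → c (e i) (e j) = l

/-- `F` is a set of positive integers, almost invariant under the multiplication by the numbers up to `K`. -/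
def AInv (K : ℕ) (F : Finset ℕ) : Prop :=
  0 ∉ F ∧ ∀ c, 1 ≤ c → c ≤ K → K * (F.filter (fun n => c * n ∉ F)).card ≤ F.card

/-- The dilates `n ↦ ψ (c n)`, `1 ≤ c ≤ K`, fall into at most `m` classes, up to `ε`. -/
def FewDilates (K m : ℕ) (ε : ℝ) (ψ : ℕ → ℝ) : Prop :=
  ∃ κ : ℕ → Fin m, ∀ c d, 1 ≤ c → c ≤ K → 1 ≤ d → d ≤ K → κ c = κ d → ∀ n, 1 ≤ n →
    |ψ (c * n) - ψ (d * n)| ≤ ε

/-- complete multiplicativity on the positive integers -/
def Mult {G : Type} [Mul G] (f : ℕ → G) : Prop := ∀ x y, 1 ≤ x → 1 ≤ y → f (x * y) = f x * f y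

theorem ramsey4_one : Ramsey4 1 4 := fun _ _ =>
  ⟨Function.Embedding.refl _, 0, fun _ _ _ => Subsingleton.elim _ _⟩

open Classical in
theorem result :
    (∀ k : ℕ, 1 ≤ k → ∃ R, Ramsey4 k R) ∧ Ramsey4 1 4 ∧ Ramsey4 2 18 ∧
    -- (A) and (B)
    (∀ k R : ℕ, 1 ≤ k → Ramsey4 k R → ∀ (m : ℕ) (ε : ℝ), 0 < ε → ∃ K : ℕ, 1 ≤ K ∧
      ∀ N a : ℕ, Squarefree N → 6 ∣ N → a.Coprime N → ∀ b : Fin k → ℕ, (∀ i, 1 ≤ b i) →
        (∀ ψ : ℕ → ℝ, (∀ n, 0 ≤ ψ n) → (∀ n, ψ n ≤ 1) → FewDilates K m ε ψ → ∀ F : Finset ℕ, AInv K F →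
          1 / ((R : ℝ) - 1) * ∑ n ∈ F, ψ n - 4 * ε * F.card ≤ ∑ n ∈ F.filter (Good N a b), ψ n) ∧
        (∀ (G : Type) [Mul G] (f : ℕ → G), Mult f → ((Icc 1 K).image f).card ≤ m →
          ∀ g : G, ∀ F : Finset ℕ, AInv K F →
          1 / ((R : ℝ) - 1) * (F.filter (fun n => f n = g)).card - ε * F.card ≤
            ((F.filter (fun n => f n = g ∧ Good N a b n)).card : ℝ))) ∧
    -- (C)
    (∀ k : ℕ, 1 ≤ k → ∀ (G : Type) [Group G] [Finite G] (f : ℕ → G), Mult f → ∃ Q : ℕ, 1 ≤ Q ∧
      ∀ N a : ℕ, Squarefree N → 6 ∣ N → a.Coprime N → ∀ b : Fin k → ℕ, (∀ i, 1 ≤ b i) →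
        ∀ n₀ : ℕ, 1 ≤ n₀ →
        (∀ s : ℕ, 1 ≤ s → ∃ q : ℕ, 1 ≤ q ∧ q ≤ Q ∧ f (q * s) = f n₀ ∧ Good N a b (q * s)) ∧
        (∀ x : ℕ, x ≤ Q ^ 2 * ((Icc 1 x).filter (fun n => f n = f n₀ ∧ Good N a b n)).card + Q)) ∧
    -- (D)
    (∀ k m : ℕ, 1 ≤ k → 1 ≤ m → ∃ Q : ℕ, 1 ≤ Q ∧
      ∀ N a : ℕ, Squarefree N → 6 ∣ N → a.Coprime N → ∀ b : Fin k → ℕ, (∀ i, 1 ≤ b i) → ∀ r : ℕ,
        ∀ x : ℕ, x ≤ Q ^ 2 * ((Icc 1 x).filter
          (fun n => ArithmeticFunction.cardFactors n ≡ r [MOD m] ∧ Good N a b n)).card + Q) := by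
  have hC : ∀ k : ℕ, 1 ≤ k → ∀ (G : Type) [Group G] [Finite G] (f : ℕ → G), Mult f → ∃ Q : ℕ, 1 ≤ Q ∧
      ∀ N a : ℕ, Squarefree N → 6 ∣ N → a.Coprime N → ∀ b : Fin k → ℕ, (∀ i, 1 ≤ b i) →
        ∀ n₀ : ℕ, 1 ≤ n₀ →
        (∀ s : ℕ, 1 ≤ s → ∃ q : ℕ, 1 ≤ q ∧ q ≤ Q ∧ f (q * s) = f n₀ ∧ Good N a b (q * s)) ∧
        (∀ x : ℕ, x ≤ Q ^ 2 * ((Icc 1 x).filter (fun n => f n = f n₀ ∧ Good N a b n)).card + Q) := by
    intro k hk G _ _ f hf
    obtain ⟨Q, hQ, h⟩ := Pool.Agent.Helper95.MC.part4 k hk G f hf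
    refine ⟨Q, hQ, fun N a hsq h6 ha b hb n₀ hn₀ => ⟨fun s hs => ?_, fun x => ?_⟩⟩
    · exact (h N a hsq h6 ha b hb n₀ hn₀).1 s hs
    · have h1 : x / Q ≤ Q * ((Icc 1 x).filter (fun n => f n = f n₀ ∧ Good N a b n)).card :=
        (h N a hsq h6 ha b hb n₀ hn₀).2 x
      have h2 : x < Q * (x / Q + 1) := Nat.lt_mul_div_succ x hQ
      have h3 : Q * (x / Q + 1) ≤ Q * (Q * ((Icc 1 x).filter (fun n => f n = f n₀ ∧ Good N a b n)).card + 1) :=
        Nat.mul_le_mul_left Q (by omega)
      have h4 : Q * (Q * ((Icc 1 x).filter (fun n => f n = f n₀ ∧ Good N a b n)).card + 1) =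
          Q ^ 2 * ((Icc 1 x).filter (fun n => f n = f n₀ ∧ Good N a b n)).card + Q := by ring
      omega
  refine ⟨Pool.Agent.Results.MP_70e905_nt.SimultaneousMultiples.result.1, ramsey4_one,
    Pool.Agent.Results.MP_70e905_nt.SimultaneousMultiples.result.2.1, ?_, hC, ?_⟩
  · intro k R hk hR m ε hε
    obtain ⟨K₁, hK₁, h₁⟩ := Pool.Agent.Helper95.MC.part1 k R hk hR m ε hε
    obtain ⟨K₂, hK₂, h₂⟩ := Pool.Agent.Helper95.MC.part2 k R hk hR m ε hε
    have hmono : ∀ K : ℕ, 1 ≤ K → K ≤ K₁ + K₂ → ∀ F : Finset ℕ, AInv (K₁ + K₂) F →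
        Pool.Agent.Helper95.MC.AInv K F := by
      intro K hK hle F hF
      refine ⟨hF.1, fun c hc hcK => ?_⟩
      exact (Nat.mul_le_mul_right _ hle).trans (hF.2 c hc (hcK.trans hle))
    refine ⟨K₁ + K₂, by omega, fun N a hsq h6 ha b hb => ⟨fun ψ h0 h1 hψ F hF => ?_,
      fun G _ f hf hG g F hF => ?_⟩⟩
    · obtain ⟨κ, hκ⟩ := hψ
      exact h₁ N a hsq h6 ha b hb ψ h0 h1 ⟨κ, fun c d hc hcK hd hdK => hκ c d hc (by omega) hd (by omega)⟩ F
        (hmono K₁ hK₁ (by omega) F hF)
    · refine h₂ N a hsq h6 ha b hb G f hf ?_ g F (hmono K₂ hK₂ (by omega) F hF)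
      refine (card_le_card (image_subset_image ?_)).trans hG
      exact Icc_subset_Icc le_rfl (by omega)
  · intro k m hk hm
    have : NeZero m := ⟨by omega⟩
    obtain ⟨Q, hQ, h⟩ := hC k hk (Multiplicative (ZMod m))
      (fun n => Multiplicative.ofAdd ((ArithmeticFunction.cardFactors n : ℕ) : ZMod m)) (by
        intro x y hx hy
        simp only
        rw [ArithmeticFunction.cardFactors_mul (by omega) (by omega), Nat.cast_add, ofAdd_add])
    refine ⟨Q, hQ, fun N a hsq h6 ha b hb r x => ?_⟩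
    refine ((h N a hsq h6 ha b hb (2 ^ r) (Nat.one_le_two_pow)).2 x).trans ?_
    refine Nat.add_le_add_right (Nat.mul_le_mul_left _ (card_le_card fun n hn => ?_)) _
    simp only [mem_filter] at hn ⊢
    refine ⟨hn.1, ?_, hn.2.2⟩
    have h1 := hn.2.1
    simp only [EmbeddingLike.apply_eq_iff_eq] at h1
    rw [ArithmeticFunction.cardFactors_apply_prime_pow Nat.prime_two] at h1
    exact (ZMod.natCast_eq_natCast_iff _ _ _).1 h1

end Pool.Agent.Results.MP_70e905_nt.MultiplicativeClasses
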