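import Pool.Agent.Helper2.NR.Main
import Pool.Graph.R_seed8.Y826.ZC.Gap45

/-!
# Differences of arbitrary sets of integers as gaps along arbitrarily long narrow progressions of primes

Call `d` a progression gap if there is `c > 0` such that for every `l` there is `B` such that for infinitely many `X`
at least `c X / (log X) ^ 45` primes `p` in `(X, 5 X]` are terms of `l`-term arithmetic progressions, with common
difference at most `(log X) ^ B`, all of whose terms `q` are primes with NEXT prime exactly `q + d`. One of the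
differences of any 289 integers is a progression gap, and in every finite set of `n` integers at least
`n (n - 288) / 576` pairs have this property; the same for one of the differences of every admissible 45-tuple and for
one of the multiples `2N, 4N, ..., 212N` of every even number `2N`.

Proof. `Pool.Agent.Helper2.NR.general_one`: the sieve weights of `DHL[45,2]` give small weight to the `n` for which some
`n + h i` has a prime factor up to `n ^ (1 / r)`, and the relative Szemeredi theorem for arbitrary subsets of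
rough patterns; then Turan's theorem as in the starting file.
-/

set_option autoImplicit false

namespace Pool.Agent.Results.MP_70e905_nt.ProgressionsOf289

open Finset Filter
open Pool.Agent.Helper2.NR Pool.Agent.Y826.ZC
open Pool.Agent.H95R2.BG (Admissible)

/-- `p` is a prime and the next prime is `p + d` -/
def GapAfter (d p : ℕ) : Prop :=
  p.Prime ∧ (p + d).Prime ∧ ∀ m : ℕ, 0 < m → m < d → ¬ (p + m).Prime

/-- `p` is a term of an `l`-term arithmetic progression, with common difference between `1` and `D`, all of whose terms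
are primes followed by a gap of length exactly `d`. -/
def OnLongProgression (d l : ℕ) (D : ℝ) (p : ℕ) : Prop :=
  ∃ q s : ℕ, 1 ≤ s ∧ (s : ℝ) ≤ D ∧ (∀ i < l, GapAfter d (q + i * s)) ∧ ∃ i < l, p = q + i * s

/-- The positive integer `d` is a gap between consecutive primes along arbitrarily long narrow progressions, often. -/
def ProgressionGap (d : ℤ) : Prop :=
  0 < d ∧ ∃ c : ℝ, 0 < c ∧ ∀ l : ℕ, 1 ≤ l → ∃ B : ℕ, ∃ᶠ X : ℕ in atTop,
    c * ((X : ℝ) / Real.log X ^ 45) ≤
      (Set.ncard {p : ℕ | X < p ∧ p ≤ 5 * X ∧ OnLongProgression d.toNat l (Real.log X ^ B) p} : ℝ)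

lemma conv {H : Finset ℕ} {r u v l : ℕ} {D : ℝ} {a b n : ℕ} (huv : u < v)
    (h : Pool.Agent.Q25.Arb.OnProgression {n | Pat H r u v n} l D a b n) : OnLongProgression (v - u) l D (n + u) := by
  obtain ⟨m, d, h1, h2, h3, i, hi, rfl⟩ := h
  refine ⟨m + u, d, h1, h2, fun j hj => ?_, i, hi, by ring⟩
  obtain ⟨⟨g1, g2, g3, _⟩, _, _⟩ := h3 j hj
  have e : m + u + j * d = m + j * d + u := by ring
  rw [e]
  refine ⟨g1, ?_, fun t ht1 ht2 => ?_⟩
  · have e2 : m + j * d + u + (v - u) = m + j * d + v := by omega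
    rw [e2]
    exact g2
  · have e2 : m + j * d + u + t = m + j * d + (u + t) := by ring
    rw [e2]
    exact g3 (u + t) (by omega) (by omega)

lemma card_conv {H : Finset ℕ} {r u v l : ℕ} {D : ℝ} {X : ℕ} (huv : u < v) (hu : u ≤ X) :
    (Pool.Agent.Q25.Arb.N {n | Pool.Agent.Q25.Arb.OnProgression {n | Pat H r u v n} l D X (4 * X) n} X (4 * X) : ℝ) ≤
      (Set.ncard {p : ℕ | X < p ∧ p ≤ 5 * X ∧ OnLongProgression (v - u) l D p} : ℝ) := by
  classical
  unfold Pool.Agent.Q25.Arb.N
  rw [← card_image_of_injective _ (add_left_injective u), ← Set.ncard_coe_finset]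
  apply Nat.cast_le.2
  apply Set.ncard_le_ncard
  · intro p hp
    rw [mem_coe, mem_image] at hp
    obtain ⟨n, hn, rfl⟩ := hp
    rw [mem_filter, mem_Ioc] at hn
    obtain ⟨⟨h1, h2⟩, h3⟩ := hn
    exact ⟨by show X < n + u; omega, by show n + u ≤ 5 * X; omega, conv huv h3⟩
  · exact (Set.finite_Iic (5 * X)).subset fun p hp => hp.2.1

theorem of_adm_nat (h : Fin 45 → ℕ) (hadm : Admissible h) :
    ∃ i j, h i < h j ∧ ProgressionGap ((h j : ℤ) - h i) := by
  obtain ⟨r₀, hr₀⟩ := general_one h hadm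
  obtain ⟨c, i, j, hc, hij, hl⟩ := hr₀ r₀ le_rfl
  have hij' : (h i : ℤ) < h j := by exact_mod_cast hij
  refine ⟨i, j, hij, by linarith, c, hc, fun l hl1 => ?_⟩
  obtain ⟨B, hB⟩ := hl l hl1
  refine ⟨B, ?_⟩
  have e : ((h j : ℤ) - h i).toNat = h j - h i := by omega
  rw [e]
  refine (hB.and_eventually (eventually_ge_atTop (h i))).mono ?_
  rintro X ⟨hX, hX2⟩
  exact hX.trans (card_conv hij hX2)

theorem of_adm (a : Fin 45 → ℤ) (hinj : Function.Injective a)
    (hadm : ∀ p : ℕ, p.Prime → ∃ r : ℤ, ∀ i, ¬ (p : ℤ) ∣ r + a i) :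
    ∃ i j, a i < a j ∧ ProgressionGap (a j - a i) := by
  obtain ⟨i0, -, hi0⟩ := Finset.exists_min_image (Finset.univ : Finset (Fin 45)) a ⟨0, Finset.mem_univ _⟩
  have hpos : ∀ i, 0 ≤ a i - a i0 := fun i => by linarith [hi0 i (mem_univ _)]
  have hcast : ∀ i, (((a i - a i0).toNat : ℕ) : ℤ) = a i - a i0 := fun i => Int.toNat_of_nonneg (hpos i)
  obtain ⟨i, j, hij, h⟩ := of_adm_nat (fun i => (a i - a i0).toNat) ⟨by
      intro i j hij
      have h1 : (a i - a i0).toNat = (a j - a i0).toNat := hij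
      have h2 : a i - a i0 = a j - a i0 := by rw [← hcast i, ← hcast j, h1]
      exact hinj (by linarith), by
      intro p hp
      obtain ⟨r, hr⟩ := hadm p hp
      have hp0 : (p : ℤ) ≠ 0 := by exact_mod_cast hp.ne_zero
      refine ⟨((r + a i0) % p).toNat, fun i hd => hr i ?_⟩
      have h1 : (p : ℤ) ∣ ((((r + a i0) % p).toNat + (a i - a i0).toNat : ℕ) : ℤ) := by exact_mod_cast hd
      rw [Nat.cast_add, hcast i, Int.toNat_of_nonneg (Int.emod_nonneg _ hp0)] at h1
      have h2 : (p : ℤ) ∣ (r + a i0) - (r + a i0) % p := Int.dvd_self_sub_emod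
      have h3 := dvd_add h1 h2
      have e : (r + a i0) % p + (a i - a i0) + ((r + a i0) - (r + a i0) % p) = r + a i := by ring
      rwa [e] at h3⟩
  refine ⟨i, j, ?_, ?_⟩
  · have h1 : (a i - a i0).toNat < (a j - a i0).toNat := hij
    have h2 : (((a i - a i0).toNat : ℕ) : ℤ) < (((a j - a i0).toNat : ℕ) : ℤ) := by exact_mod_cast h1
    rw [hcast, hcast] at h2
    linarith
  · have e : ((((a j - a i0).toNat : ℕ) : ℤ)) - (((a i - a i0).toNat : ℕ) : ℤ) = a j - a i := by
      rw [hcast, hcast]; ring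
    rw [← e]
    exact h

theorem exists_289 (S : Finset ℤ) (hS : 289 ≤ S.card) :
    ∃ a ∈ S, ∃ b ∈ S, a < b ∧ ProgressionGap (b - a) := by
  obtain ⟨T, hTS, hT, hc⟩ := admissible_subset S hS
  set f := T.orderEmbOfFin hT with hf
  have hmem : ∀ i, f i ∈ T := fun i => Finset.orderEmbOfFin_mem T hT i
  obtain ⟨i, j, hij, h⟩ := of_adm (fun i => f i) f.injective (by
    intro p hp
    obtain ⟨c, hc'⟩ := hc p hp
    refine ⟨-c, fun i hd => hc' _ (hmem i) ?_⟩
    rwa [neg_add_eq_sub] at hd)
  exact ⟨f i, hTS (hmem i), f j, hTS (hmem j), hij, h⟩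

theorem multiple (N : ℕ) (hN : 0 < N) : ∃ k : ℕ, 1 ≤ k ∧ k ≤ 106 ∧ ProgressionGap ((k : ℤ) * (2 * N)) := by
  obtain ⟨i, j, hij, h⟩ := of_adm (fun i => (N : ℤ) * tup45 i) (by
      intro i j hij
      have h1 : (N : ℤ) * tup45 i = N * tup45 j := hij
      have h2 : (tup45 i : ℤ) = tup45 j := mul_left_cancel₀ (by exact_mod_cast hN.ne') h1
      exact tup45_admissible.1 (by exact_mod_cast h2)) (by
      intro p hp
      by_cases hpN : p ∣ N
      · refine ⟨1, fun i hdvd => ?_⟩
        have h1 : (p : ℤ) ∣ (N : ℤ) * tup45 i := Dvd.dvd.mul_right (by exact_mod_cast hpN) _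
        have h2 : (p : ℤ) ∣ 1 := (Int.dvd_iff_dvd_of_dvd_add hdvd).mpr h1
        have h3 : (p : ℕ) ∣ 1 := by exact_mod_cast h2
        exact hp.one_lt.ne' (Nat.dvd_one.mp h3)
      · obtain ⟨a0, ha0⟩ := tup45_admissible.2 p hp
        refine ⟨(N : ℤ) * a0, fun i hdvd => ?_⟩
        have h1 : (p : ℤ) ∣ (N : ℤ) * ((a0 + tup45 i : ℕ) : ℤ) := by
          push_cast
          rw [mul_add]
          exact hdvd
        have h2 : p ∣ N * (a0 + tup45 i) := by exact_mod_cast h1
        rcases hp.dvd_mul.mp h2 with h3 | h3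
        · exact hpN h3
        · exact ha0 i h3)
  have hlt : tup45 i < tup45 j := by
    have h1 : (N : ℤ) * tup45 i < N * tup45 j := hij
    have h2 : (tup45 i : ℤ) < tup45 j := lt_of_mul_lt_mul_left h1 (by positivity)
    exact_mod_cast h2
  obtain ⟨u, hu⟩ := tup45_even i
  obtain ⟨v, hv⟩ := tup45_even j
  have hj := tup45_le j
  refine ⟨v - u, by omega, by omega, ?_⟩
  have e : ((v - u : ℕ) : ℤ) * (2 * N) = (N : ℤ) * tup45 j - (N : ℤ) * tup45 i := by
    rw [Nat.cast_sub (by omega), hu, hv]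
    push_cast
    ring
  rw [e]
  exact h

open Classical in
/-- the pairs of elements of `S` whose difference is a progression gap -/
noncomputable def goodPairs (S : Finset ℤ) : Finset (ℤ × ℤ) :=
  (S ×ˢ S).filter fun p => p.1 < p.2 ∧ ProgressionGap (p.2 - p.1)

/-- the graph of the pairs whose difference is not a progression gap -/
def badGraph (S : Finset ℤ) : SimpleGraph S where
  Adj a b := a ≠ b ∧ ¬ ProgressionGap (max (a : ℤ) b - min (a : ℤ) b)
  symm := ⟨fun a b h => ⟨h.1.symm, by rw [max_comm, min_comm]; exact h.2⟩⟩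
  loopless := ⟨fun a h => h.1 rfl⟩

theorem badGraph_cliqueFree (S : Finset ℤ) : (badGraph S).CliqueFree (288 + 1) := by
  classical
  intro T hT
  rw [SimpleGraph.isNClique_iff, SimpleGraph.isClique_iff] at hT
  obtain ⟨a, ha, b, hb, hab, h⟩ := exists_289 (T.map (Function.Embedding.subtype _)) (by
    rw [card_map]; exact hT.2.ge)
  rw [Finset.mem_map] at ha hb
  obtain ⟨a', ha', rfl⟩ := ha
  obtain ⟨b', hb', rfl⟩ := hb
  have hab' : (a' : ℤ) < b' := hab
  have hne : a' ≠ b' := by
    rintro rfl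
    exact lt_irrefl _ hab'
  have h2 := hT.1 (mem_coe.2 ha') (mem_coe.2 hb') hne
  apply h2.2
  rw [max_eq_right hab'.le, min_eq_left hab'.le]
  exact h

open Classical in
theorem edges_le (S : Finset ℤ) :
    2 * 288 * (badGraph S).edgeFinset.card ≤ 287 * S.card ^ 2 := by
  obtain ⟨H, _, maxH⟩ := SimpleGraph.exists_isTuranMaximal (V := S) (r := 288) (by norm_num)
  have h1 : (badGraph S).edgeFinset.card ≤ H.edgeFinset.card := by
    convert! maxH.2 (badGraph_cliqueFree S)
  have h2 : H.edgeFinset.card = (SimpleGraph.turanGraph (Fintype.card S) 288).edgeFinset.card :=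
    ((SimpleGraph.isTuranMaximal_iff_nonempty_iso_turanGraph (by norm_num)).mp maxH).some.card_edgeFinset_eq
  have h3 := SimpleGraph.mul_card_edgeFinset_turanGraph_le (n := Fintype.card S) (r := 288)
  rw [Fintype.card_coe] at h2 h3
  calc 2 * 288 * (badGraph S).edgeFinset.card ≤ 2 * 288 * H.edgeFinset.card := by gcongr
    _ = 2 * 288 * (SimpleGraph.turanGraph S.card 288).edgeFinset.card := by rw [h2]
    _ ≤ 287 * S.card ^ 2 := h3

open Classical in
theorem bad_le (S : Finset ℤ) :
    ((S ×ˢ S).filter fun p => p.1 < p.2 ∧ ¬ ProgressionGap (p.2 - p.1)).card ≤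
      (badGraph S).edgeFinset.card := by
  refine Finset.card_le_card_of_surjOn (fun e : Sym2 S =>
    (Sym2.lift ⟨fun a b : S => (min (a : ℤ) b, max (a : ℤ) b), fun a b => by
      show (min (a : ℤ) b, max (a : ℤ) b) = (min (b : ℤ) a, max (b : ℤ) a)
      rw [min_comm, max_comm]⟩ e)) ?_
  rintro ⟨a, b⟩ hab
  rw [mem_coe, mem_filter, mem_product] at hab
  obtain ⟨⟨ha, hb⟩, h1, h2⟩ := hab
  simp only at ha hb h1 h2
  refine ⟨s(⟨a, ha⟩, ⟨b, hb⟩), ?_, ?_⟩
  · rw [mem_coe, SimpleGraph.mem_edgeFinset, SimpleGraph.mem_edgeSet]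
    refine ⟨fun h => h1.ne (congrArg Subtype.val h), ?_⟩
    rw [max_eq_right h1.le, min_eq_left h1.le]
    exact h2
  · simp only [Sym2.lift_mk, min_eq_left h1.le, max_eq_right h1.le]

theorem card_sq (S : Finset ℤ) :
    S.card ^ 2 = S.card + 2 * ((S ×ˢ S).filter fun p => p.1 < p.2).card := by
  classical
  have h1 : (S ×ˢ S).card = S.card ^ 2 := by rw [card_product, sq]
  have h2 : (S ×ˢ S) = ((S ×ˢ S).filter fun p => p.1 < p.2) ∪
      (((S ×ˢ S).filter fun p => p.2 < p.1) ∪ S.diag) := by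
    ext ⟨a, b⟩
    simp only [mem_product, mem_union, mem_filter, mem_diag]
    constructor
    · rintro ⟨ha, hb⟩
      rcases lt_trichotomy a b with h | h | h
      · exact Or.inl ⟨⟨ha, hb⟩, h⟩
      · exact Or.inr (Or.inr ⟨ha, h⟩)
      · exact Or.inr (Or.inl ⟨⟨ha, hb⟩, h⟩)
    · rintro (h | h | h)
      · exact h.1
      · exact h.1
      · exact ⟨h.1, h.2 ▸ h.1⟩
  have h3 : ((S ×ˢ S).filter fun p => p.2 < p.1).card = ((S ×ˢ S).filter fun p => p.1 < p.2).card := by
    refine card_bij (fun p _ => (p.2, p.1)) ?_ ?_ ?_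
    · rintro ⟨a, b⟩ h
      simp only [mem_filter, mem_product] at h ⊢
      exact ⟨⟨h.1.2, h.1.1⟩, h.2⟩
    · rintro ⟨a, b⟩ _ ⟨c, d⟩ _ h
      simp only [Prod.mk.injEq] at h ⊢
      exact ⟨h.2, h.1⟩
    · rintro ⟨a, b⟩ h
      simp only [mem_filter, mem_product] at h
      exact ⟨(b, a), by simp only [mem_filter, mem_product]; exact ⟨⟨h.1.2, h.1.1⟩, h.2⟩, rfl⟩
  rw [← h1]
  conv_lhs => rw [h2]
  rw [card_union_of_disjoint, card_union_of_disjoint, h3, diag_card]
  · ring
  · rw [disjoint_left]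
    rintro ⟨a, b⟩ h h'
    simp only [mem_filter, mem_diag] at h h'
    exact h.2.ne h'.2.symm
  · rw [disjoint_left]
    rintro ⟨a, b⟩ h h'
    simp only [mem_filter, mem_diag, mem_union] at h h'
    rcases h' with h' | h'
    · exact lt_asymm h.2 h'.2
    · exact h.2.ne h'.2

theorem main_count (S : Finset ℤ) :
    S.card ^ 2 ≤ 288 * S.card + 576 * (goodPairs S).card := by
  classical
  have h1 := card_sq S
  have h2 := edges_le S
  have h3 := bad_le S
  have h4 : ((S ×ˢ S).filter fun p => p.1 < p.2).card =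
      (goodPairs S).card + ((S ×ˢ S).filter fun p => p.1 < p.2 ∧ ¬ ProgressionGap (p.2 - p.1)).card := by
    rw [← card_filter_add_card_filter_not (s := (S ×ˢ S).filter fun p => p.1 < p.2)
      (fun p => ProgressionGap (p.2 - p.1)), filter_filter, filter_filter, goodPairs]
  nlinarith

/-- (1) For every finite set `S` of `n` integers at least `n (n - 288) / 576` pairs `a < b` of elements of `S`
have the property that `b - a` is a progression gap. (2) In particular this holds for at least one pair if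
`n ≥ 289`. (3) One of the differences of every admissible 45-tuple is a progression gap. (4) One of the multiples
`2 N, 4 N, ..., 212 N` of every even number `2 N > 0` is a progression gap. -/
theorem result :
    (∀ S : Finset ℤ, ∃ P : Finset (ℤ × ℤ),
      (∀ p ∈ P, p.1 ∈ S ∧ p.2 ∈ S ∧ p.1 < p.2 ∧ ProgressionGap (p.2 - p.1)) ∧
      (S.card : ℝ) * ((S.card : ℝ) - 288) / 576 ≤ P.card) ∧
    (∀ S : Finset ℤ, 289 ≤ S.card → ∃ a ∈ S, ∃ b ∈ S, a < b ∧ ProgressionGap (b - a)) ∧
    (∀ a : Fin 45 → ℤ, Function.Injective a →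
      (∀ p : ℕ, p.Prime → ∃ r : ℤ, ∀ i, ¬ (p : ℤ) ∣ r + a i) →
      ∃ i j, a i < a j ∧ ProgressionGap (a j - a i)) ∧
    (∀ N : ℕ, 0 < N → ∃ k : ℕ, 1 ≤ k ∧ k ≤ 106 ∧ ProgressionGap ((k : ℤ) * (2 * N))) := by
  classical
  refine ⟨fun S => ⟨goodPairs S, ?_, ?_⟩, exists_289, of_adm, multiple⟩
  · intro p hp
    rw [goodPairs, mem_filter, mem_product] at hp
    exact ⟨hp.1.1, hp.1.2, hp.2.1, hp.2.2⟩
  · have h := main_count S
    have h' : (S.card : ℝ) ^ 2 ≤ 288 * S.card + 576 * (goodPairs S).card := by exact_mod_cast h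
    nlinarith

end Pool.Agent.Results.MP_70e905_nt.ProgressionsOf289
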