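import Mathlib
import Pool.Agent.Helper6.Gaps.Dich
import Pool.Graph.R_pool_sql_team_seeded_1e53cb71.Helper22K9.Gap

/-!
# Gaps between consecutive primes in every long window: two fifths, or almost all multiples of `3 m`

Let `N` be squarefree and divisible by `6`, let `a` be prime to `N`, and call `d` a gap if it is equal to
`p_(l+1) - p_l`, `p_l ≡ a (mod N)`, for at least `x ^ (1 - η)` primes `p_l ≤ x`, for every `η > 0` and
arbitrarily large `x`. For EVERY multiple `m > 0` of `N` (for `N = 6`: every multiple of `6`) one of the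
following holds:

* every long window (with a length which depends on the precision only, not on the place) contains at
  least a proportion `2 / 5 - ε` of the multiples of `m` in it as gaps;
* every long window contains at least a proportion `1 - ε` of the multiples of `3 m` in it as gaps.

In particular one of `m`, `3 m` has the proportion `2 / 5 - ε` in every long window. The constant `1 / 3` is the
limit of what the theorem of Maynard and Tao gives by the pigeonhole principle alone: among four shifts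
two have a gap as difference, and the multiples of `3` are the complement of a set with density `2 / 3`
without four numbers all of whose differences lie in the set. The second alternative is this case.

Starting point (library): the coloured theorem of Maynard and Tao with four classes of shifts. New: a set
of integers without four large classes of numbers all of whose differences lie in the set has at most the
proportion `3 / 5 + ε` in every long window, or contains almost no multiples of `3`; by means with the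
extreme property (on which correlations with the set are given by trigonometric polynomials), a robust form
of the theorem of Kneser for compact groups with a net argument, and iterated means.
-/

set_option autoImplicit false

namespace Pool.Agent.Results.MP_70e905_nt.TwoFifthsOrAllTriples

open Finset Filter

/-- `d` is, for every `η > 0` and arbitrarily large `x`, the gap `p_(l+1) - p_l` for at least
`x ^ (1 - η)` of the `l` with `p_l ≤ x` and `p_l ≡ a (mod N)`. -/
def IsGap (N a d : ℕ) : Prop := ∀ η : ℝ, 0 < η → ∃ᶠ x : ℝ in atTop,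
  x ^ (1 - η) ≤ ({l : ℕ | (Nat.nth Nat.Prime l : ℝ) ≤ x ∧ Nat.nth Nat.Prime l ≡ a [MOD N] ∧
    Nat.nth Nat.Prime (l + 1) = Nat.nth Nat.Prime l + d}.ncard : ℝ)

/-- Every window of `T ≥ L` consecutive multiples of `m` contains at least `(δ - ε) T` gaps, `L = L (ε)`. -/
def Windows (N a m : ℕ) (δ : ℝ) : Prop :=
  ∀ ε : ℝ, 0 < ε → ∃ L : ℕ, ∀ T : ℕ, L ≤ T → ∀ u : ℕ,
    (δ - ε) * T ≤ ({k : ℕ | u < k ∧ k ≤ u + T ∧ IsGap N a (m * k)}.ncard : ℝ)

/-- The complement of the gaps has no large boxes. -/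
theorem noBoxes (N a b : ℕ) (hb : 0 < b) (hsq : Squarefree N) (h6 : 6 ∣ N) (ha : a.Coprime N) :
    ∃ K : ℕ, ¬ Pool.Agent.Helper6.Gaps.Boxes {k : ℤ | ¬ IsGap N a (N * (b * k.natAbs))} K := by
  classical
  obtain ⟨C, δ, -, hδ, h⟩ := Pool.Agent.Helper22K9.final
  obtain ⟨h1, -, -, -⟩ := h N a (Nat.pos_of_ne_zero hsq.ne_zero) ((by norm_num : 2 ∣ 6).trans h6) hsq ha
  have h3 : 3 ∣ N := (by norm_num : 3 ∣ 6).trans h6
  have hlim : Tendsto (fun n : ℕ => C * (n : ℝ) ^ (-δ)) atTop (nhds (C * 0)) :=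
    ((tendsto_rpow_neg_atTop hδ).comp tendsto_natCast_atTop_atTop).const_mul C
  rw [mul_zero] at hlim
  obtain ⟨K, hK1, hK⟩ := ((eventually_ge_atTop 1).and (hlim.eventually (gt_mem_nhds one_pos))).exists
  refine ⟨K, ?_⟩
  rintro ⟨A, hinj, hA⟩
  obtain ⟨M, hM⟩ : ∃ M : ℤ, ∀ i < 4, ∀ k < K, 0 ≤ A i k + M := by
    refine ⟨∑ i ∈ range 4, ∑ k ∈ range K, |A i k|, fun i hi k hk => ?_⟩
    have e1 : |A i k| ≤ ∑ k ∈ range K, |A i k| :=
      single_le_sum (f := fun k => |A i k|) (fun _ _ => abs_nonneg _) (mem_range.2 hk)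
    have e2 : ∑ k ∈ range K, |A i k| ≤ ∑ i ∈ range 4, ∑ k ∈ range K, |A i k| :=
      single_le_sum (f := fun i => ∑ k ∈ range K, |A i k|)
        (fun _ _ => sum_nonneg fun _ _ => abs_nonneg _) (mem_range.2 hi)
    have e3 := neg_abs_le (A i k)
    linarith
  obtain ⟨V, hV⟩ : ∃ V : Fin 4 → Finset ℕ, V = fun i : Fin 4 =>
    (range K).image (fun k => b * (A i k + M).toNat) := ⟨_, rfl⟩
  have hcard : ∀ i, (V i).card = K := by
    intro i
    rw [hV]
    show ((range K).image (fun k => b * (A i k + M).toNat)).card = K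
    rw [card_image_of_injOn, card_range]
    intro k hk k' hk' he
    have hk1 : k < K := mem_range.1 (mem_coe.1 hk)
    have hk2 : k' < K := mem_range.1 (mem_coe.1 hk')
    have e1 := Nat.eq_of_mul_eq_mul_left hb he
    have e2 := hM i i.2 k hk1
    have e3 := hM i i.2 k' hk2
    exact hinj i hk1 hk2 (by omega)
  have hall : (Fintype.piFinset V).filter (Pool.Agent.Helper22K9.Bad N a) = Fintype.piFinset V := by
    rw [filter_eq_self]
    intro f hf i j hij hG
    rw [Fintype.mem_piFinset] at hf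
    have hi := hf i
    have hj := hf j
    rw [hV] at hi hj
    obtain ⟨k, hk, hki⟩ := mem_image.1 hi
    obtain ⟨k', hk', hkj⟩ := mem_image.1 hj
    rw [mem_range] at hk hk'
    have e2 := hM i i.2 k hk
    have e3 := hM j j.2 k' hk'
    have hlt : (A i k + M).toNat < (A j k' + M).toNat := by
      rw [← hki, ← hkj] at hij
      exact lt_of_mul_lt_mul_left hij (Nat.zero_le b)
    have hsub : f j - f i = b * (A j k' - A i k).natAbs := by
      rw [← hki, ← hkj, ← Nat.mul_sub]
      congr 1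
      omega
    have hsub' : f j - f i = b * (A i k - A j k').natAbs := by
      rw [← hki, ← hkj, ← Nat.mul_sub]
      congr 1
      omega
    have hne : i ≠ j := by
      rintro rfl
      exact lt_irrefl _ hij
    rcases lt_or_gt_of_ne hne with hlt' | hlt'
    · have h4 := hA i j (Fin.lt_def.1 hlt') j.2 k' k hk' hk
      apply h4
      rw [← hsub]
      exact hG
    · have h4 := hA j i (Fin.lt_def.1 hlt') i.2 k k' hk hk'
      apply h4
      rw [← hsub']
      exact hG
  have hfin := h1 K hK1 V (fun i => (hcard i).ge) (Or.inl h3)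
  rw [hall, Fintype.card_piFinset] at hfin
  simp only [hcard, prod_const, card_univ, Fintype.card_fin] at hfin
  push_cast at hfin
  have hK0 : (0 : ℝ) < (K : ℝ) ^ 4 := by positivity
  have h5 : C * (K : ℝ) ^ (-δ) * (K : ℝ) ^ 4 < 1 * (K : ℝ) ^ 4 := mul_lt_mul_of_pos_right hK hK0
  linarith

theorem result (N a m : ℕ) (hsq : Squarefree N) (h6 : 6 ∣ N) (ha : a.Coprime N) (hm : 0 < m) (hN : N ∣ m) :
    Windows N a m (2 / 5) ∨ Windows N a (3 * m) 1 := by
  classical
  obtain ⟨b, rfl⟩ := hN
  have hb : 0 < b := Nat.pos_of_mul_pos_left hm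
  obtain ⟨K, hK⟩ := noBoxes N a b hb hsq h6 ha
  have hcompl : ∀ (P Q : ℕ → Prop) (u T : ℕ), (∀ k, P k ↔ ¬ Q k) →
      (T : ℝ) - ({k : ℕ | u < k ∧ k ≤ u + T ∧ P k}.ncard : ℝ) =
        ({k : ℕ | u < k ∧ k ≤ u + T ∧ Q k}.ncard : ℝ) := by
    intro P Q u T hPQ
    have e1 : {k : ℕ | u < k ∧ k ≤ u + T ∧ P k} = ↑((Ioc u (u + T)).filter P) := by
      ext k; simp [and_assoc]
    have e2 : {k : ℕ | u < k ∧ k ≤ u + T ∧ Q k} = ↑((Ioc u (u + T)).filter (fun k => ¬ P k)) := by
      ext k; simp [and_assoc, hPQ]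
    rw [e1, e2, Set.ncard_coe_finset, Set.ncard_coe_finset]
    have e3 := card_filter_add_card_filter_not (s := Ioc u (u + T)) P
    rw [Nat.card_Ioc, Nat.add_sub_cancel_left] at e3
    have e4 : (T : ℝ) = (((Ioc u (u + T)).filter P).card : ℝ) +
      (((Ioc u (u + T)).filter (fun k => ¬ P k)).card : ℝ) := by exact_mod_cast e3.symm
    linarith
  rcases Pool.Agent.Helper6.Gaps.dichotomy _ K hK with h | h
  · left
    intro ε hε
    obtain ⟨L, hL⟩ := h ε hε
    refine ⟨L, fun T hT u => ?_⟩
    have h1 := hL T hT ((u : ℤ) + 1)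
    have e0 := hcompl (fun k => ¬ IsGap N a (N * b * k)) (fun k => IsGap N a (N * b * k)) u T
      (fun k => Iff.rfl)
    have e1 : {k : ℕ | u < k ∧ k ≤ u + T ∧ ¬ IsGap N a (N * b * k)}.ncard =
        {n : ℕ | n < T ∧ (u : ℤ) + 1 + (n : ℤ) ∈ {k : ℤ | ¬ IsGap N a (N * (b * k.natAbs))}}.ncard := by
      have e2 : {k : ℕ | u < k ∧ k ≤ u + T ∧ ¬ IsGap N a (N * b * k)} = (fun n => n + (u + 1)) ''
          {n : ℕ | n < T ∧ (u : ℤ) + 1 + (n : ℤ) ∈ {k : ℤ | ¬ IsGap N a (N * (b * k.natAbs))}} := by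
        ext k
        simp only [Set.mem_ofPred_eq, Set.mem_image]
        constructor
        · rintro ⟨h2, h3, h4⟩
          refine ⟨k - (u + 1), ⟨by omega, ?_⟩, by omega⟩
          have h5 : ((u : ℤ) + 1 + ((k - (u + 1) : ℕ) : ℤ)).natAbs = k := by omega
          rw [h5, ← mul_assoc]
          exact h4
        · rintro ⟨n, ⟨h2, h3⟩, rfl⟩
          refine ⟨by omega, by omega, ?_⟩
          have h5 : ((u : ℤ) + 1 + (n : ℤ)).natAbs = n + (u + 1) := by omega
          rw [h5, ← mul_assoc] at h3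
          exact h3
      rw [e2, Set.ncard_image_of_injective _ (add_left_injective _)]
    rw [← e1] at h1
    linarith
  · right
    intro ε hε
    obtain ⟨L, hL⟩ := h (ε / 3) (by positivity)
    refine ⟨L, fun T hT u => ?_⟩
    have h1 := hL (3 * T) (by omega) (3 * (u : ℤ) + 1)
    have e0 := hcompl (fun k => ¬ IsGap N a (3 * (N * b) * k)) (fun k => IsGap N a (3 * (N * b) * k)) u T
      (fun k => Iff.rfl)
    have e1 : {k : ℕ | u < k ∧ k ≤ u + T ∧ ¬ IsGap N a (3 * (N * b) * k)}.ncard ≤
        {n : ℕ | n < 3 * T ∧ 3 * (u : ℤ) + 1 + (n : ℤ) ∈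
          {z | z ∈ {k : ℤ | ¬ IsGap N a (N * (b * k.natAbs))} ∧ (3 : ℤ) ∣ z}}.ncard := by
      have hf : {n : ℕ | n < 3 * T ∧ 3 * (u : ℤ) + 1 + (n : ℤ) ∈
          {z | z ∈ {k : ℤ | ¬ IsGap N a (N * (b * k.natAbs))} ∧ (3 : ℤ) ∣ z}}.Finite :=
        (Set.finite_lt_nat (3 * T)).subset fun n hn => hn.1
      refine Set.ncard_le_ncard_of_injOn (fun k => 3 * k - (3 * u + 1)) ?_ ?_ hf
      · rintro k ⟨h2, h3, h4⟩
        refine ⟨?_, ?_, ?_⟩
        · show 3 * k - (3 * u + 1) < 3 * T
          omega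
        · have h5 : (3 * (u : ℤ) + 1 + ((3 * k - (3 * u + 1) : ℕ) : ℤ)).natAbs = 3 * k := by omega
          show ¬ IsGap N a (N * (b * (3 * (u : ℤ) + 1 + ((3 * k - (3 * u + 1) : ℕ) : ℤ)).natAbs))
          rw [h5]
          have h6 : N * (b * (3 * k)) = 3 * (N * b) * k := by ring
          rw [h6]
          exact h4
        · have h5 : (3 * (u : ℤ) + 1 + ((3 * k - (3 * u + 1) : ℕ) : ℤ)) = 3 * (k : ℤ) := by omega
          show (3 : ℤ) ∣ (3 * (u : ℤ) + 1 + ((3 * k - (3 * u + 1) : ℕ) : ℤ))
          rw [h5]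
          exact dvd_mul_right _ _
      · rintro k ⟨h2, h3, h4⟩ k' ⟨h2', h3', h4'⟩ he
        simp only at he
        omega
    have e2 : ({k : ℕ | u < k ∧ k ≤ u + T ∧ ¬ IsGap N a (3 * (N * b) * k)}.ncard : ℝ) ≤
        ({n : ℕ | n < 3 * T ∧ 3 * (u : ℤ) + 1 + (n : ℤ) ∈
          {z | z ∈ {k : ℤ | ¬ IsGap N a (N * (b * k.natAbs))} ∧ (3 : ℤ) ∣ z}}.ncard : ℝ) := by
      exact_mod_cast e1
    push_cast at h1
    linarith

end Pool.Agent.Results.MP_70e905_nt.TwoFifthsOrAllTriples
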